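import Mathlib
import Pool.Agent.J4.H31.MF.New
import Pool.Agent.J4.H31.MF.Fe
import Pool.Agent.J4.H31.MF.Quad

/-!
A Maass newform of level 25 and trivial character all of whose quadratic twists have root number
`-1`; so the central values of all of them vanish.
-/

set_option autoImplicit false

open Filter Topology
open scoped MatrixGroups ContDiff

namespace Pool.Agent.Results.MP_17f4cb_nt.AllTwistsVanish

/-- The Bessel function `K_{iν}(x) = ∫_0^∞ exp(-x cosh t) cos(νt) dt` for real `ν` and `x > 0`. -/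
noncomputable def besselK (ν x : ℝ) : ℝ :=
  ∫ t in Set.Ioi (0 : ℝ), Real.exp (-x * Real.cosh t) * Real.cos (ν * t)

/-- The action of `SL₂(ℤ)` by fractional linear maps. -/
noncomputable def act (g : SL(2, ℤ)) (z : ℂ) : ℂ :=
  ((g 0 0 : ℤ) * z + (g 0 1 : ℤ)) / ((g 1 0 : ℤ) * z + (g 1 1 : ℤ))

/-- `R` is a system of representatives for the right cosets `Γ₀(N) \ Γ₀(M)`. -/
def IsReps (N M : ℕ) (R : Finset SL(2, ℤ)) : Prop :=
  (∀ g ∈ R, g ∈ CongruenceSubgroup.Gamma0 M) ∧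
    ∀ h ∈ CongruenceSubgroup.Gamma0 M, ∃! g, g ∈ R ∧ h * g⁻¹ ∈ CongruenceSubgroup.Gamma0 N

/-- `f`, a function on the upper half-plane, is an even Maass cusp form of weight 0 for `Γ₀(N)`
(trivial character) with Laplace eigenvalue `1/4 + ν²`, it is a newform, and `a(n)` are its
normalised Hecke eigenvalues. -/
structure IsMaassNewform (N : ℕ) (ν : ℝ) (f : ℂ → ℂ) (a : ℕ → ℂ) : Prop where
  /-- smoothness on the upper half-plane -/
  smooth : ContDiffOn ℝ ∞ f {z : ℂ | 0 < z.im}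
  /-- `-y² (∂²f/∂x² + ∂²f/∂y²) = (1/4 + ν²) f` -/
  laplace : ∀ z : ℂ, 0 < z.im →
    -(z.im : ℂ) ^ 2 * (deriv (deriv fun t : ℝ => f (z + t)) 0 +
      deriv (deriv fun t : ℝ => f (z + t * Complex.I)) 0) = (1 / 4 + (ν : ℂ) ^ 2) * f z
  /-- invariance under `Γ₀(N)` -/
  invariant : ∀ g ∈ CongruenceSubgroup.Gamma0 N, ∀ z : ℂ, 0 < z.im → f (act g z) = f z
  /-- exponential decay at all cusps -/
  decay : ∀ g : SL(2, ℤ), ∃ C δ : ℝ, 0 < δ ∧
    ∀ z : ℂ, 1 ≤ z.im → ‖f (act g z)‖ ≤ C * Real.exp (-(δ * z.im))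
  /-- the constant terms at all cusps are zero -/
  cuspidal : ∀ (g : SL(2, ℤ)) (y : ℝ), 0 < y →
    ∫ x in (0 : ℝ)..N, f (act g (x + y * Complex.I)) = 0
  /-- the Fourier expansion at infinity, `f(x+iy) = ∑_{n ≥ 1} 2 √y a(n) K_{iν}(2πny) cos(2πnx)` -/
  fourier : ∀ x y : ℝ, 0 < y →
    HasSum (fun n : ℕ => ((2 * Real.sqrt y : ℝ) : ℂ) * a n *
      ((besselK ν (2 * Real.pi * n * y) * Real.cos (2 * Real.pi * n * x) : ℝ) : ℂ))
      (f (x + y * Complex.I))
  a_zero : a 0 = 0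
  a_one : a 1 = 1
  /-- eigenfunction of the Hecke operators `T_p` -/
  hecke : ∀ p : ℕ, p.Prime → ¬ p ∣ N → ∀ z : ℂ, 0 < z.im →
    f (p * z) + ∑ j ∈ Finset.range p, f ((z + j) / p) = ((Real.sqrt p : ℝ) : ℂ) * a p * f z
  /-- eigenfunction of the operators `U_p` -/
  atkin : ∀ p : ℕ, p.Prime → p ∣ N → ∀ z : ℂ, 0 < z.im →
    ∑ j ∈ Finset.range p, f ((z + j) / p) = ((Real.sqrt p : ℝ) : ℂ) * a p * f z
  /-- the Hecke relations of the eigenvalues -/
  mult : ∀ p : ℕ, p.Prime → ∀ n : ℕ, 0 < n →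
    a (p * n) + (if p ∣ n ∧ ¬ p ∣ N then a (n / p) else 0) = a p * a n
  /-- eigenfunction of the Fricke involution -/
  fricke : ∃ e : ℂ, (e = 1 ∨ e = -1) ∧ ∀ z : ℂ, 0 < z.im → f (-1 / (N * z)) = e * f z
  /-- `f` is new: for every prime `p` dividing `N`, the traces to `Γ₀(N/p)` of `f` and of its
  transform by the Fricke involution are zero -/
  new : ∀ p : ℕ, p.Prime → p ∣ N → ∀ R : Finset SL(2, ℤ), IsReps N (N / p) R →
    ∀ z : ℂ, 0 < z.im → ∑ g ∈ R, f (act g z) = 0 ∧ ∑ g ∈ R, f (-1 / (N * act g z)) = 0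

/-- `χ` is the primitive Dirichlet character attached to the quadratic field `E`:
`ζ_E(s) = ζ(s) L(s, χ)`. -/
def IsFieldChar (E : Type) [Field E] [NumberField E] {r : ℕ} (χ : DirichletCharacter ℂ r) : Prop :=
  χ.IsPrimitive ∧
    ∀ s : ℂ, 1 < s.re → NumberField.dedekindZeta E s = riemannZeta s * LSeries (fun n => χ n) s

/-- `L` is the entire function given by `∑ a(n) χ(n) n^{-s}` for `Re s > 1`. -/
def IsTwistL (a : ℕ → ℂ) {r : ℕ} (χ : DirichletCharacter ℂ r) (L : ℂ → ℂ) : Prop :=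
  Differentiable ℂ L ∧ ∀ s : ℂ, 1 < s.re → LSeriesHasSum (fun n => a n * χ n) s (L s)

/-- The completed `L`-function `Q^{s/2} Γ_ℝ(s+d+iν) Γ_ℝ(s+d-iν) L(s)` of conductor `Q`. -/
noncomputable def completed (Q : ℕ) (d : ℕ) (ν : ℝ) (L : ℂ → ℂ) (s : ℂ) : ℂ :=
  (Q : ℂ) ^ (s / 2) *
    (Complex.Gammaℝ (s + d + ν * Complex.I) * Complex.Gammaℝ (s + d - ν * Complex.I)) * L s

/-- the quadratic extensions `E` of `ℚ` with `|Δ_E| < x` -/
def fields (x : ℝ) : Set (IntermediateField ℚ ℂ) :=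
  {E | Module.finrank ℚ E = 2 ∧ ∃ _ : NumberField E, |(NumberField.discr E : ℝ)| < x}

/-- the quadratic extensions `E` of `ℚ` with `|Δ_E| < x` for which the `L`-function of the twist
by the quadratic character of `E` does not vanish at `1/2` -/
def nonvanishing (a : ℕ → ℂ) (x : ℝ) : Set (IntermediateField ℚ ℂ) :=
  {E | Module.finrank ℚ E = 2 ∧ ∃ _ : NumberField E, |(NumberField.discr E : ℝ)| < x ∧
    ∃ (r : ℕ) (_ : NeZero r) (χ : DirichletCharacter ℂ r) (L : ℂ → ℂ),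
      IsFieldChar E χ ∧ IsTwistL a χ L ∧ L (1 / 2) ≠ 0}

/-- a character attached to a quadratic field is quadratic -/
lemma sq_eq_one {E : Type} [Field E] [NumberField E] (hE : Module.finrank ℚ E = 2) {r : ℕ} [NeZero r]
    {χ : DirichletCharacter ℂ r} (h : IsFieldChar E χ) : χ ^ 2 = 1 := by
  obtain ⟨r', hr', χ', hp', hsq', hz'⟩ := Pool.Agent.J4.H31.MF.exists_field_char E hE
  apply MulChar.ext
  intro u
  rw [MulChar.one_apply_coe, MulChar.pow_apply_coe]
  have hr : 0 < r := Nat.pos_of_ne_zero (NeZero.ne r)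
  set n : ℕ := (u : ZMod r).val + r with hn
  have hn0 : n ≠ 0 := by omega
  have hnu : ((n : ℕ) : ZMod r) = u := by
    rw [hn, Nat.cast_add, ZMod.natCast_self, add_zero, ZMod.natCast_zmod_val]
  have h1 : χ n = χ' n := Pool.Agent.J4.H31.MF.field_char_unique h.2 hz' hn0
  have h2 : χ (n : ZMod r) ≠ 0 := by
    rw [hnu]
    exact (u.isUnit.map χ).ne_zero
  rw [hnu] at h1 h2
  have h3 : IsUnit ((n : ℕ) : ZMod r') := by
    by_contra hc
    rw [χ'.map_nonunit hc] at h1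
    exact h2 h1
  obtain ⟨v, hv⟩ := h3
  rw [h1, ← hv, ← MulChar.pow_apply_coe, hsq', MulChar.one_apply_coe]

/-- the `L`-function is unique -/
lemma unique_L {a : ℕ → ℂ} {r : ℕ} {χ : DirichletCharacter ℂ r} {L L' : ℂ → ℂ}
    (h : IsTwistL a χ L) (h' : IsTwistL a χ L') : L' = L := by
  have h1 : AnalyticOnNhd ℂ L Set.univ := h.1.differentiableOn.analyticOnNhd isOpen_univ
  have h2 : AnalyticOnNhd ℂ L' Set.univ := h'.1.differentiableOn.analyticOnNhd isOpen_univ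
  refine h2.eq_of_eventuallyEq h1 (z₀ := 2) ?_
  have h3 : ∀ᶠ s : ℂ in 𝓝 (2 : ℂ), 1 < s.re := by
    apply (isOpen_lt continuous_const Complex.continuous_re).mem_nhds
    simp
  filter_upwards [h3] with s hs
  have h4 := h.2 s hs
  have h5 := h'.2 s hs
  exact HasSum.unique h5 h4

lemma newform : IsMaassNewform 25 Pool.Agent.J4.H31.MF.nu Pool.Agent.J4.H31.MF.f
    Pool.Agent.J4.H31.MF.aco where
  smooth := Pool.Agent.J4.H31.MF.f_smooth
  laplace := fun z hz => Pool.Agent.J4.H31.MF.f_laplace hz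
  invariant := fun g hg z hz =>
    Pool.Agent.J4.H31.MF.f_invariant g ((Pool.Agent.J4.H31.MF.mem_G0 25 g).1 hg) hz
  decay := fun g => Pool.Agent.J4.H31.MF.f_decay g
  cuspidal := fun g y hy => by
    have := Pool.Agent.J4.H31.MF.f_constant_term g hy
    push_cast
    exact this
  fourier := fun x y hy => by
    have := Pool.Agent.J4.H31.MF.f_fourier (x := x) hy
    convert this using 2 with n
    rw [Complex.ofReal_mul (besselK _ _), ← mul_assoc, Complex.ofReal_mul, Complex.ofReal_ofNat]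
    rfl
  a_zero := Pool.Agent.J4.H31.MF.aco_zero
  a_one := Pool.Agent.J4.H31.MF.aco_one
  hecke := fun p hp h z hz => by
    have h5 : p ≠ 5 := by
      rintro rfl
      exact h (by norm_num)
    exact Pool.Agent.J4.H31.MF.f_hecke hp h5 hz
  atkin := fun p hp h z hz => by
    have h5 : p = 5 := by
      have : p ∣ 5 ^ 2 := by norm_num; exact h
      exact (Nat.prime_dvd_prime_iff_eq hp (by norm_num)).1 (hp.dvd_of_dvd_pow this)
    subst h5
    have h1 := Pool.Agent.J4.H31.MF.aco_five 1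
    rw [mul_one] at h1
    rw [h1, mul_zero, zero_mul]
    exact Pool.Agent.J4.H31.MF.f_five hz
  mult := fun p hp n hn => by
    by_cases h5 : p = 5
    · subst h5
      have h1 := Pool.Agent.J4.H31.MF.aco_five 1
      rw [mul_one] at h1
      rw [h1, Pool.Agent.J4.H31.MF.aco_five, if_neg (by norm_num), zero_mul, zero_add]
    · have h1 := Pool.Agent.J4.H31.MF.aco_hecke hp h5 hn
      have h2 : ¬ p ∣ 25 := by
        intro h
        have : p ∣ 5 ^ 2 := by norm_num; exact h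
        exact h5 ((Nat.prime_dvd_prime_iff_eq hp (by norm_num)).1 (hp.dvd_of_dvd_pow this))
      rw [← h1]
      congr 1
      by_cases h3 : p ∣ n
      · rw [if_pos h3, if_pos ⟨h3, h2⟩]
      · rw [if_neg h3, if_neg (fun h => h3 h.1)]
  fricke := ⟨-1, Or.inr rfl, fun z hz => by
    have := Pool.Agent.J4.H31.MF.f_fricke hz
    push_cast
    rw [this]
    ring⟩
  new := fun p hp h R hR z hz => by
    have h5 : p = 5 := by
      have : p ∣ 5 ^ 2 := by norm_num; exact h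
      exact (Nat.prime_dvd_prime_iff_eq hp (by norm_num)).1 (hp.dvd_of_dvd_pow this)
    subst h5
    have h1 := Pool.Agent.J4.H31.MF.f_trace (R := R) hR.1 hR.2 hz
    refine ⟨h1, ?_⟩
    have h2 : ∀ g : SL(2, ℤ), Pool.Agent.J4.H31.MF.f (-1 / ((25 : ℕ) * act g z)) =
        -Pool.Agent.J4.H31.MF.f (act g z) := by
      intro g
      push_cast
      exact Pool.Agent.J4.H31.MF.f_fricke (Pool.Agent.J4.H31.MF.moeb_im_pos g hz)
    simp only [h2]
    rw [Finset.sum_neg_distrib, neg_eq_zero]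
    exact h1

theorem result : ∃ (ν : ℝ) (f : ℂ → ℂ) (a : ℕ → ℂ), IsMaassNewform 25 ν f a ∧
    (∀ n : ℕ, a n ≠ 0 → n % 5 = 1 ∨ n % 5 = 4) ∧
    (∀ (E : Type) [Field E] [NumberField E], Module.finrank ℚ E = 2 →
      (∃ (r : ℕ) (_ : NeZero r) (χ : DirichletCharacter ℂ r), IsFieldChar E χ) ∧
      ∀ (r : ℕ) [NeZero r] (χ : DirichletCharacter ℂ r), IsFieldChar E χ →
        ∃ L : ℂ → ℂ, IsTwistL a χ L ∧ (∀ L' : ℂ → ℂ, IsTwistL a χ L' → L' = L) ∧ L (1 / 2) = 0 ∧
          ∀ d : ℕ, (d = 0 ∧ χ (-1) = 1 ∨ d = 1 ∧ χ (-1) = -1) →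
            ∀ s : ℂ, 0 < s.re → s.re < 1 →
              completed (Nat.lcm 25 (r ^ 2)) d ν L (1 - s) =
                -completed (Nat.lcm 25 (r ^ 2)) d ν L s) ∧
    (∀ x : ℝ, (fields x).Finite ∧ nonvanishing a x = ∅) ∧
    (∀ᶠ x : ℝ in atTop, 0 < (fields x).ncard) ∧
    Tendsto (fun x : ℝ => ((nonvanishing a x).ncard : ℝ) / (fields x).ncard) atTop (𝓝 0) ∧
    ¬ Tendsto (fun x : ℝ => ((nonvanishing a x).ncard : ℝ) / (fields x).ncard) atTop
      (𝓝 (1 / 2)) := by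
  have hE : ∀ (E : Type) [Field E] [NumberField E], Module.finrank ℚ E = 2 →
      ∀ (r : ℕ) [NeZero r] (χ : DirichletCharacter ℂ r), IsFieldChar E χ →
        ∃ L : ℂ → ℂ, IsTwistL Pool.Agent.J4.H31.MF.aco χ L ∧
          (∀ L' : ℂ → ℂ, IsTwistL Pool.Agent.J4.H31.MF.aco χ L' → L' = L) ∧ L (1 / 2) = 0 ∧
          ∀ d : ℕ, (d = 0 ∧ χ (-1) = 1 ∨ d = 1 ∧ χ (-1) = -1) →
            ∀ s : ℂ, 0 < s.re → s.re < 1 →
              completed (Nat.lcm 25 (r ^ 2)) d Pool.Agent.J4.H31.MF.nu L (1 - s) =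
                -completed (Nat.lcm 25 (r ^ 2)) d Pool.Agent.J4.H31.MF.nu L s := by
    intro E _ _ h2 r _ χ hχ
    obtain ⟨L, hL1, hL2, hL3, hL4⟩ := Pool.Agent.J4.H31.MF.exists_L_all (sq_eq_one h2 hχ) hχ.1
    refine ⟨L, ⟨hL1, hL2⟩, fun L' h' => unique_L ⟨hL1, hL2⟩ h', hL3, fun d hd s h0 h1 => ?_⟩
    have hd' : Pool.Agent.J4.H31.MF.par χ = d := by
      unfold Pool.Agent.J4.H31.MF.par
      rcases hd with ⟨rfl, h⟩ | ⟨rfl, h⟩
      · rw [if_pos h]
      · rw [if_neg]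
        rw [h]
        norm_num
    have h3 := hL4 s h0 h1
    rw [hd'] at h3
    unfold completed
    unfold Pool.Agent.J4.H31.MF.completed at h3
    rw [Complex.ofReal_natCast] at h3
    exact h3
  have hempty : ∀ x : ℝ, nonvanishing Pool.Agent.J4.H31.MF.aco x = ∅ := by
    intro x
    rw [Set.eq_empty_iff_forall_notMem]
    rintro E ⟨h2, hN, -, r, hr, χ, L, hχ, hL, hne⟩
    obtain ⟨L0, h1, h3, h4, -⟩ := hE E h2 r χ hχ
    rw [h3 L hL] at hne
    exact hne h4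
  have hfin : ∀ x : ℝ, (fields x).Finite := fun x => Pool.Agent.J4.H31.MF.finite_fields x
  have hpos : ∀ᶠ x : ℝ in atTop, 0 < (fields x).ncard := by
    obtain ⟨E, hE2⟩ := Pool.Agent.J4.H31.MF.exists_quad_field
    have hfd : FiniteDimensional ℚ E := Module.finite_of_finrank_pos (by rw [hE2]; norm_num)
    have hNF : NumberField E := @NumberField.mk _ _ inferInstance hfd
    filter_upwards [Filter.eventually_gt_atTop |(NumberField.discr E : ℝ)|] with x hx
    rw [Set.ncard_pos (hfin x)]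
    exact ⟨E, hE2, hNF, hx⟩
  have hzero : Tendsto (fun x : ℝ => ((nonvanishing Pool.Agent.J4.H31.MF.aco x).ncard : ℝ) /
      (fields x).ncard) atTop (𝓝 0) := by
    simp only [hempty, Set.ncard_empty, Nat.cast_zero, zero_div]
    exact tendsto_const_nhds
  refine ⟨Pool.Agent.J4.H31.MF.nu, Pool.Agent.J4.H31.MF.f, Pool.Agent.J4.H31.MF.aco, newform, ?_, ?_,
    fun x => ⟨hfin x, hempty x⟩, hpos, hzero, ?_⟩
  · intro n hn
    by_contra h
    exact hn (Pool.Agent.J4.H31.MF.aco_support h)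
  · intro E _ _ h2
    refine ⟨?_, hE E h2⟩
    obtain ⟨r, hr, χ, hp, -, hz⟩ := Pool.Agent.J4.H31.MF.exists_field_char E h2
    exact ⟨r, hr, χ, hp, hz⟩
  · intro h
    have := tendsto_nhds_unique hzero h
    norm_num at this

end Pool.Agent.Results.MP_17f4cb_nt.AllTwistsVanish
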